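import Pool.Agent.H.MP_93c42a_an.C

set_option autoImplicit false

open Set Filter Topology

namespace Pool.Agent.Results.MP_93c42a_an.Cases

variable (X : Type) [NormedAddCommGroup X] [NormedSpace ℝ X]

/-- property (H) of the closed unit ball -/
def PropH : Prop :=
  ∀ α : ℝ, 0 < α → α < 1 → ∃ T : Metric.closedBall (0 : X) 1 → Metric.closedBall (0 : X) 1,
    (∀ n ≥ 1, ∀ x y, ‖(T^[n] x : X) - T^[n] y‖ ≤ ‖(x : X) - y‖ ^ α) ∧ (∀ x, T x ≠ x) ∧
      ⨅ x : Metric.closedBall (0 : X) 1, ‖(x : X) - T x‖ = 0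

/-- a bounded projection with infinite-dimensional range and kernel -/
def Decomposable : Prop :=
  ∃ p : X →L[ℝ] X, (∀ x, p (p x) = p x) ∧ ¬FiniteDimensional ℝ p.range ∧ ¬FiniteDimensional ℝ p.ker

/-- isomorphic to a Hilbert space -/
def Hilbertian : Prop :=
  ∃ (H : Type) (_ : NormedAddCommGroup H) (_ : InnerProductSpace ℝ H) (_ : CompleteSpace H),
    Nonempty (X ≃L[ℝ] H)

/-- the quadratic variations of a sequence -/
def jset (x : ℕ → ℝ) : Set ℝ :=
  {r | ∃ k ≥ 1, ∃ p : ℕ → ℕ, StrictMono p ∧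
    r = √(∑ i ∈ Finset.range k, (x (p i) - x (p (i + 1))) ^ 2)}

/-- `X` is James's space `J₂` with the norm `‖·‖_J` -/
def IsJames : Prop :=
  ∃ e : X →ₗ[ℝ] (ℕ → ℝ), Function.Injective e ∧
    (∀ x, x ∈ Set.range e ↔ Tendsto x atTop (𝓝 0) ∧ BddAbove (jset x)) ∧
    ∀ x, ‖x‖ = sSup (jset (e x))

open Pool.Agent.H.MP_93c42a_an

theorem james (h : IsJames X) : Decomposable X := by
  obtain ⟨e, h1, h2, h3⟩ := h
  have mφ : Monotone fun n => 2 * (n / 2) := fun a b h => by simp only; omega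
  have key : ∀ x : ℕ → ℝ, BddAbove (jset x) → ∀ r ∈ jset fun n => x (2 * (n / 2)),
      r ≤ sSup (jset x) := by
    rintro x hx _ ⟨k, -, q, hq, rfl⟩
    obtain ⟨j, p, a, -, c⟩ := mono x (mφ.comp hq.monotone) k
    refine le_trans (Real.sqrt_le_sqrt (c.trans_le ?_))
      (le_csSup hx ⟨j + 1, Nat.le_add_left _ _, p, a, rfl⟩)
    rw [Finset.sum_range_succ]
    exact le_add_of_nonneg_right (sq_nonneg _)
  have m : ∀ x, LinearMap.funLeft ℝ ℝ (fun n => 2 * (n / 2)) (e x) ∈ LinearMap.range e := fun x =>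
    (h2 _).2 ⟨((h2 _).1 ⟨x, rfl⟩).1.comp (tendsto_atTop_atTop.2 fun b => ⟨b + 1, fun a h => by
      omega⟩), _, key _ ((h2 _).1 ⟨x, rfl⟩).2⟩
  let P : X →ₗ[ℝ] X := (LinearEquiv.ofInjective e h1).symm.toLinearMap ∘ₗ
    LinearMap.codRestrict _ (LinearMap.funLeft ℝ ℝ (fun n => 2 * (n / 2)) ∘ₗ e) m
  have eP : ∀ x, e (P x) = fun n => e x (2 * (n / 2)) := fun x =>
    congrArg Subtype.val ((LinearEquiv.ofInjective e h1).apply_symm_apply ⟨_, m x⟩)
  have sg : ∀ n, ∃ u, e u = Pi.single n 1 := fun n => (h2 _).2 ⟨tendsto_const_nhds.congr' (by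
      filter_upwards [eventually_gt_atTop n] with a ha using by simp [ha.ne']),
    √2, by
      rintro _ ⟨k, -, p, hp, rfl⟩
      refine Real.sqrt_le_sqrt ?_
      have a : ∀ q : ℕ → ℕ, q.Injective →
          ∑ i ∈ Finset.range k, (Pi.single n 1 : ℕ → ℝ) (q i) ≤ 1 := fun q hq => by
        simp only [Pi.single_apply, Finset.sum_boole, Nat.cast_le_one]
        exact Finset.card_le_one.2 fun a ha b hb => hq
          ((Finset.mem_filter.1 ha).2.trans (Finset.mem_filter.1 hb).2.symm)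
      refine le_trans (Finset.sum_le_sum fun i _ => ?_) ((Finset.sum_add_distrib.trans_le
        (add_le_add (a p hp.injective) (a (fun i => p (i + 1))
          (hp.injective.comp Nat.succ_injective)))).trans_eq one_add_one_eq_two)
      simp only [Pi.single_apply]
      split_ifs <;> norm_num⟩
  choose u hu using sg
  have PP : ∀ x, P (P x) = P x := fun x => h1 (by
    rw [eP, eP]
    ext n
    simp)
  refine ⟨P.mkContinuous 1 fun x => ?_, PP,
    inf (v := fun n => P (u (2 * n))) (fun n => LinearMap.proj (2 * n) ∘ₗ e) (fun i j => ?_)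
      fun n => ⟨_, rfl⟩,
    inf (v := fun n => u (2 * n + 1)) (fun n => LinearMap.proj (2 * n + 1) ∘ₗ e) (fun i j => ?_)
      fun n => h1 ?_⟩
  · rw [one_mul, h3, h3, eP]
    exact csSup_le ⟨_, 1, le_rfl, id, strictMono_id, rfl⟩ (key _ ((h2 _).1 ⟨x, rfl⟩).2)
  · simp [eP, hu, Pi.single_apply]
  · simp [hu, Pi.single_apply]
  · change e (P _) = _
    rw [eP, hu, map_zero]
    ext m
    exact Pi.single_eq_of_ne (by omega) _

theorem result (X : Type) [NormedAddCommGroup X] [NormedSpace ℝ X] [CompleteSpace X]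
    (hX : ¬FiniteDimensional ℝ X) (h : Decomposable X ∨ Hilbertian X ∨
      Nonempty (UnconditionalSchauderBasis ℕ ℝ X) ∨ IsJames X) : PropH X := by
  have : Decomposable X := by
    rcases h with h | ⟨H, _, _, _, ⟨e⟩⟩ | ⟨⟨b⟩⟩ | h
    · exact h
    · obtain ⟨w, b, -⟩ := exists_hilbertBasis ℝ H
      have c := b.toUnconditionalSchauderBasis
      exact unc hX (β := w) ⟨fun i => e.symm (c i), fun i => (c.coord i).comp (e : X →L[ℝ] H),
        fun i j => by simpa using c.ortho i j,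
        fun x => by simpa using (c.expansion (e x)).mapL (e.symm : H →L[ℝ] X)⟩
    · exact unc hX b
    · exact james X h
  obtain ⟨p, h1, h2, h3⟩ := this
  obtain ⟨M, hM, T, a, b, c, d⟩ := main p h1 h2 h3
  exact fun α h0 h1 => hold hM a b c d h0 h1

end Pool.Agent.Results.MP_93c42a_an.Cases
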